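import Pool.Agent.Run7.h414.BS.Hom
import Pool.Agent.TH956.Folk

set_option autoImplicit false

namespace Pool.Agent.Run7.h414.BS

open Finset

/-- The number of positions of block `j` with letter `α`. -/
def cnt {I R A : Type} [Fintype I] [DecidableEq R] [DecidableEq A] (b : I → R) (x : I → A)
    (j : R) (α : A) : ℕ :=
  (univ.filter fun i => b i = j ∧ x i = α).card

theorem block_fold (t : ℕ) (ht : 0 < t) : ∃ F : ℕ, ∀ (I R A : Type) [Fintype I] [DecidableEq R]
    [DecidableEq A] (b : I → R) (V : Set (I → A)) (G : SimpleGraph (I → A)) (k N : ℕ)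
    (x : I → A) (j : R) (α β : A), BlockSym b V G → NoMono V G k → x ∈ V → α ≠ β → 0 < N →
    k ≤ N ^ t → F ≤ cnt b x j β → cnt b x j α < (N - 1) * F := by
  classical
  obtain ⟨F, hF⟩ := Pool.Agent.TH956.folkman Prop t
  refine ⟨F, fun I R A _ _ _ b V G k N x j α β hsym hno hx hαβ hN hk hβ => ?_⟩
  by_contra hcon
  rw [not_lt] at hcon
  obtain ⟨T, hT, cT⟩ := exists_subset_card_eq hβ
  set E : Finset I := univ.filter fun i => b i = j ∧ x i = α with hE
  have hT' : ∀ i ∈ T, b i = j ∧ x i = β := fun i hi => (mem_filter.1 (hT hi)).2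
  have hE' : ∀ i ∈ E, b i = j ∧ x i = α := fun i hi => (mem_filter.1 hi).2
  have hdis : Disjoint T E := by
    rw [disjoint_left]
    intro i h1 h2
    exact hαβ ((hE' i h2).2.symm.trans (hT' i h1).2)
  have hD : ∀ i ∈ T ∪ E, b i = j := by
    intro i hi
    rcases mem_union.1 hi with h | h
    · exact (hT' i h).1
    · exact (hE' i h).1
  have hw : wd x (T ∪ E) α β T = x := by
    funext i
    unfold wd
    by_cases h1 : i ∈ T ∪ E
    · rw [if_pos h1]
      by_cases h2 : i ∈ T
      · rw [if_pos h2, (hT' i h2).2]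
      · rw [if_neg h2]
        rcases mem_union.1 h1 with h | h
        · exact absurd h h2
        · rw [(hE' i h).2]
    · rw [if_neg h1]
  obtain ⟨a, κ, hpos, hfold⟩ := hF (gcol G x (T ∪ E) α β F)
  have hfold' : ∀ s : Finset ℕ, s.Nonempty → s ⊆ range t → ∑ i ∈ s, a i ≤ F ∧
      (gcol G x (T ∪ E) α β F (∑ i ∈ s, a i) ↔ κ) := by
    intro s hs hs'
    obtain ⟨h1, h2⟩ := hfold s hs hs'
    exact ⟨h1, by rw [h2]⟩
  have h3 : ∑ i ∈ range t, a i ≤ F := (hfold (range t) (by simpa using ht.ne') subset_rfl).1
  obtain ⟨K, hK, cK, hm⟩ := hom_of_fold hsym x (T ∪ E) j hD α β hαβ F T subset_union_left cT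
    (by rw [hw]; exact hx) t N ht hN a κ hpos hfold' (by
      rw [card_union_of_disjoint hdis, cT]
      have h4 : (N - 1) * ∑ i ∈ range t, a i ≤ (N - 1) * F := Nat.mul_le_mul_left _ h3
      have h5 : cnt b x j α = E.card := rfl
      omega)
  have := hno K hK hm
  omega

theorem block_one (I R A : Type) [Fintype I] [DecidableEq R]
    [DecidableEq A] (b : I → R) (V : Set (I → A)) (G : SimpleGraph (I → A)) (k : ℕ)
    (x : I → A) (j : R) (α β : A) (hsym : BlockSym b V G) (hno : NoMono V G k) (hx : x ∈ V)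
    (hαβ : α ≠ β) (hβ : 1 ≤ cnt b x j β) : cnt b x j α + 1 < k := by
  classical
  obtain ⟨T, hT, cT⟩ := exists_subset_card_eq hβ
  set E : Finset I := univ.filter fun i => b i = j ∧ x i = α with hE
  have hT' : ∀ i ∈ T, b i = j ∧ x i = β := fun i hi => (mem_filter.1 (hT hi)).2
  have hE' : ∀ i ∈ E, b i = j ∧ x i = α := fun i hi => (mem_filter.1 hi).2
  have hdis : Disjoint T E := by
    rw [disjoint_left]
    intro i h1 h2
    exact hαβ ((hE' i h2).2.symm.trans (hT' i h1).2)
  have hD : ∀ i ∈ T ∪ E, b i = j := by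
    intro i hi
    rcases mem_union.1 hi with h | h
    · exact (hT' i h).1
    · exact (hE' i h).1
  have hw : wd x (T ∪ E) α β T = x := by
    funext i
    unfold wd
    by_cases h1 : i ∈ T ∪ E
    · rw [if_pos h1]
      by_cases h2 : i ∈ T
      · rw [if_pos h2, (hT' i h2).2]
      · rw [if_neg h2]
        rcases mem_union.1 h1 with h | h
        · exact absurd h h2
        · rw [(hE' i h).2]
    · rw [if_neg h1]
  obtain ⟨K, hK, cK, hm⟩ := hom_of_fold hsym x (T ∪ E) j hD α β hαβ 1 T subset_union_left cT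
    (by rw [hw]; exact hx) 1 (cnt b x j α + 1) one_pos (Nat.succ_pos _) (fun _ => 1)
    (gcol G x (T ∪ E) α β 1 1) (fun _ => one_pos) (by
      intro s hs hs'
      have h1 : s.card = 1 := by
        have h2 := card_le_card hs'
        rw [card_range] at h2
        have h3 := card_pos.2 hs
        omega
      rw [sum_const, smul_eq_mul, mul_one, h1]
      exact ⟨le_rfl, Iff.rfl⟩) (by
      rw [card_union_of_disjoint hdis, cT, Nat.add_sub_cancel, sum_const, card_range,
        smul_eq_mul, mul_one, mul_one]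
      exact le_rfl)
  have := hno K hK hm
  rw [cK, pow_one] at this
  exact this

theorem sparse_card {J A : Type} [Fintype J] [Nonempty J] [DecidableEq J] [Fintype A]
    [DecidableEq A] (m : ℕ) (W : Finset (J → A))
    (hW : ∀ w ∈ W, ∃ α, (univ.filter fun i => w i ≠ α).card ≤ m) :
    W.card ≤ Fintype.card A * (Fintype.card J * Fintype.card A) ^ m := by
  classical
  set Φ : A × (Fin m → J × A) → (J → A) := fun p i =>
    if h : ∃ l, (p.2 l).1 = i then (p.2 h.choose).2 else p.1 with hΦ
  have hsub : W ⊆ (univ : Finset (A × (Fin m → J × A))).image Φ := by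
    intro w hw
    obtain ⟨α, hα⟩ := hW w hw
    set E : Finset J := univ.filter fun i => w i ≠ α with hE
    obtain ⟨f, hf⟩ : ∃ f : Fin m → J, ∀ i ∈ E, ∃ l, f l = i := by
      refine ⟨fun l => if h : (l : ℕ) < E.card then (E.equivFin.symm ⟨l, h⟩ : J)
        else Classical.arbitrary J, ?_⟩
      intro i hi
      refine ⟨⟨E.equivFin ⟨i, hi⟩, lt_of_lt_of_le (Fin.is_lt _) hα⟩, ?_⟩
      simp
    refine mem_image.2 ⟨(α, fun l => (f l, w (f l))), mem_univ _, ?_⟩
    funext i
    rw [hΦ]
    dsimp only
    by_cases h : ∃ l, f l = i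
    · rw [dif_pos h, h.choose_spec]
    · rw [dif_neg h]
      by_contra hc
      exact h (hf i (mem_filter.2 ⟨mem_univ _, fun e => hc e.symm⟩))
  calc W.card ≤ ((univ : Finset (A × (Fin m → J × A))).image Φ).card := card_le_card hsub
    _ ≤ (univ : Finset (A × (Fin m → J × A))).card := card_image_le
    _ = Fintype.card A * (Fintype.card J * Fintype.card A) ^ m := by
      rw [card_univ, Fintype.card_prod, Fintype.card_fun, Fintype.card_prod, Fintype.card_fin]

/-- The restrictions of the words of `V` to the block `j`. -/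
noncomputable def rest {I R A : Type} [Fintype I] [Fintype A] (b : I → R) (V : Set (I → A))
    (j : R) : Finset ({i // b i = j} → A) := by
  classical
  exact (univ.filter fun x => x ∈ V).image fun x i => x i

theorem ncard_le_prod {I R A : Type} [Fintype I] [Fintype A] [Fintype R] (b : I → R)
    (V : Set (I → A)) : V.ncard ≤ ∏ j, (rest b V j).card := by
  classical
  have h1 : V.ncard = (univ.filter fun x => x ∈ V).card := by
    rw [← Set.ncard_coe_finset]
    congr 1
    ext x
    simp
  rw [h1, ← Fintype.card_piFinset]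
  refine card_le_card_of_injOn (fun x j i => x i) ?_ ?_
  · intro x hx
    have hx' : x ∈ V := by simpa using hx
    simp only [Finset.mem_coe, Fintype.mem_piFinset]
    intro j
    unfold rest
    exact mem_image.2 ⟨x, by simpa using hx', rfl⟩
  · intro x _ y _ hxy
    funext i
    exact congrFun (congrFun hxy (b i)) ⟨i, rfl⟩

theorem cnt_eq {I R A : Type} [Fintype I] [DecidableEq R] [DecidableEq A] (b : I → R) (x : I → A)
    (j : R) (α : A) : (univ.filter fun i : {i // b i = j} => x i = α).card = cnt b x j α := by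
  classical
  unfold cnt
  rw [← card_map (Function.Embedding.subtype _)]
  congr 1
  ext i
  simp only [mem_map, mem_filter, mem_univ, true_and, Function.Embedding.coe_subtype,
    Subtype.exists, exists_and_right, exists_eq_right]
  constructor
  · rintro ⟨h, h'⟩
    exact ⟨h, h'⟩
  · rintro ⟨h, h'⟩
    exact ⟨h, h'⟩

theorem sum_cnt {I R A : Type} [Fintype I] [DecidableEq R] [Fintype A] [DecidableEq A] (b : I → R)
    (x : I → A) (j : R) : ∑ α, cnt b x j α = Fintype.card {i // b i = j} := by
  classical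
  have h := card_eq_sum_card_fiberwise (f := fun i : {i // b i = j} => x i)
    (s := (univ : Finset {i // b i = j})) (t := (univ : Finset A)) (fun _ _ => mem_univ _)
  rw [← card_univ, h]
  exact sum_congr rfl fun α _ => (cnt_eq b x j α).symm

theorem exists_major {I R A : Type} [Fintype I] [DecidableEq R] [Fintype A] [Nonempty A]
    [DecidableEq A] (b : I → R)
    (x : I → A) (j : R) :
    ∃ α, Fintype.card {i // b i = j} ≤ Fintype.card A * cnt b x j α := by
  obtain ⟨α, -, hα⟩ := exists_max_image (univ : Finset A) (cnt b x j) univ_nonempty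
  refine ⟨α, ?_⟩
  rw [← sum_cnt b x j, ← smul_eq_mul, ← card_univ]
  exact sum_le_card_nsmul _ _ _ fun β hβ => hα β hβ

theorem non_major {I R A : Type} [Fintype I] [DecidableEq R] [Fintype A]
    [DecidableEq A] (b : I → R) (x : I → A) (j : R) (α : A) (F : ℕ)
    (h : ∀ β, β ≠ α → cnt b x j β ≤ F) :
    (univ.filter fun i : {i // b i = j} => x i ≠ α).card ≤ Fintype.card A * F := by
  classical
  have h1 := card_eq_sum_card_fiberwise (f := fun i : {i // b i = j} => x i)
    (s := (univ.filter fun i : {i // b i = j} => x i ≠ α))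
    (t := (univ : Finset A)) (fun _ _ => mem_univ _)
  rw [h1, ← smul_eq_mul, ← card_univ]
  refine sum_le_card_nsmul _ _ _ fun β _ => ?_
  by_cases hβ : β = α
  · subst hβ
    rw [filter_filter]
    have : (univ.filter fun i : {i // b i = j} => x i ≠ β ∧ x i = β) = ∅ := by
      ext i
      simp
    rw [this, card_empty]
    exact Nat.zero_le _
  · refine le_trans ?_ (h β hβ)
    rw [← cnt_eq b x j β]
    apply card_le_card
    intro i hi
    rw [filter_filter, mem_filter] at hi
    exact mem_filter.2 ⟨mem_univ _, hi.2.2⟩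

theorem block_card (t : ℕ) (ht : 0 < t) : ∃ F : ℕ, ∀ (I R A : Type) [Fintype I] [Fintype A]
    [Nonempty A] (b : I → R) (V : Set (I → A)) (G : SimpleGraph (I → A)) (k N : ℕ)
    (j : R), BlockSym b V G → NoMono V G k → 0 < N → 0 < k → k ≤ N ^ t →
    (rest b V j).card ≤ Fintype.card A ^ (Fintype.card A * (N * F)) *
      (Fintype.card A * (Fintype.card A * (Fintype.card A * k)) ^ (Fintype.card A * F)) := by
  classical
  obtain ⟨F, hF⟩ := block_fold t ht
  refine ⟨F, fun I R A _ _ _ b V G k N j hsym hno hN hk0 hk => ?_⟩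
  set q := Fintype.card A with hq
  have hq0 : 0 < q := Fintype.card_pos
  set s := Fintype.card {i // b i = j} with hs
  have hM1 : 1 ≤ q ^ (q * (N * F)) := Nat.one_le_pow _ _ hq0
  have hM2 : 1 ≤ (q * (q * k)) ^ (q * F) := Nat.one_le_pow _ _ (by positivity)
  have hM3 : 1 ≤ q * (q * (q * k)) ^ (q * F) := Nat.one_le_iff_ne_zero.2 (by positivity)
  have hrest : ∀ w ∈ rest b V j, ∃ x ∈ V, (fun i : {i // b i = j} => x i) = w := by
    intro w hw
    unfold rest at hw
    obtain ⟨x, hx, rfl⟩ := mem_image.1 hw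
    exact ⟨x, (mem_filter.1 hx).2, rfl⟩
  by_cases hA : ∃ x ∈ V, ∃ α β, α ≠ β ∧ s ≤ q * cnt b x j α ∧ F ≤ cnt b x j β
  · obtain ⟨x, hx, α, β, hαβ, h1, h2⟩ := hA
    have h3 := hF I R A b V G k N x j α β hsym hno hx hαβ hN hk h2
    have h4 : s ≤ q * (N * F) := by
      refine h1.trans (Nat.mul_le_mul_left _ ?_)
      refine h3.le.trans (Nat.mul_le_mul_right _ (Nat.sub_le _ _))
    calc (rest b V j).card ≤ Fintype.card ({i // b i = j} → A) := card_le_univ _
      _ = q ^ s := by rw [Fintype.card_fun]
      _ ≤ q ^ (q * (N * F)) := Nat.pow_le_pow_right hq0 h4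
      _ ≤ _ := Nat.le_mul_of_pos_right _ hM3
  · push Not at hA
    have hsmall : (rest b V j).card ≤ q * (q * (q * k)) ^ (q * F) := by
      by_cases hB : ∃ x ∈ V, ∃ α β, α ≠ β ∧ s ≤ q * cnt b x j α ∧ 1 ≤ cnt b x j β
      · obtain ⟨x, hx, α, β, hαβ, h1, h2⟩ := hB
        have h3 := block_one I R A b V G k x j α β hsym hno hx hαβ h2
        have h4 : s ≤ q * k := h1.trans (Nat.mul_le_mul_left _ (by omega))
        have hne : Nonempty {i // b i = j} := by
          unfold cnt at h2
          obtain ⟨i, hi⟩ := card_pos.1 h2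
          exact ⟨⟨i, (mem_filter.1 hi).2.1⟩⟩
        refine (sparse_card (q * F) (rest b V j) ?_).trans ?_
        · intro w hw
          obtain ⟨y, hy, rfl⟩ := hrest w hw
          obtain ⟨γ, hγ⟩ := exists_major b y j
          refine ⟨γ, non_major b y j γ F fun δ hδ => ?_⟩
          exact (hA y hy γ δ hδ.symm hγ).le
        · refine Nat.mul_le_mul_left _ (Nat.pow_le_pow_left ?_ _)
          rw [mul_comm]
          exact Nat.mul_le_mul_left _ h4
      · push Not at hB
        have h5 : rest b V j ⊆ (univ : Finset A).image fun α (_ : {i // b i = j}) => α := by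
          intro w hw
          obtain ⟨y, hy, rfl⟩ := hrest w hw
          obtain ⟨γ, hγ⟩ := exists_major b y j
          refine mem_image.2 ⟨γ, mem_univ _, ?_⟩
          have h6 := non_major b y j γ 0 fun δ hδ => by
            have := hB y hy γ δ hδ.symm hγ
            omega
          rw [mul_zero, Nat.le_zero, card_eq_zero] at h6
          funext i
          by_contra hc
          have : i ∈ (univ.filter fun i : {i // b i = j} => y i ≠ γ) :=
            mem_filter.2 ⟨mem_univ _, fun e => hc e.symm⟩
          rw [h6] at this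
          exact absurd this (notMem_empty _)
        calc (rest b V j).card ≤ _ := card_le_card h5
          _ ≤ (univ : Finset A).card := card_image_le
          _ = q := card_univ
          _ ≤ q * (q * (q * k)) ^ (q * F) := Nat.le_mul_of_pos_right _ hM2
    exact hsmall.trans (Nat.le_mul_of_pos_left _ hM1)

end Pool.Agent.Run7.h414.BS
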