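import Mathlib

set_option autoImplicit false

/-!
# Block-symmetric colourings of sets of words
-/

namespace Pool.Agent.Run7.h414.BS

/-- `V` is a set of words (words are functions from the positions `I` to the letters `A`), the
positions are divided into blocks by `b : I → R`, and every permutation of the positions which
maps each block to itself maps `V` to `V` and preserves the colours of the pairs of words in `V`
(a pair is red if it is an edge of `G` and blue otherwise). -/
structure BlockSym {I R A : Type} (b : I → R) (V : Set (I → A)) (G : SimpleGraph (I → A)) :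
    Prop where
  mem : ∀ σ : Equiv.Perm I, (∀ i, b (σ i) = b i) → ∀ x ∈ V, x ∘ σ ∈ V
  adj : ∀ σ : Equiv.Perm I, (∀ i, b (σ i) = b i) → ∀ x ∈ V, ∀ y ∈ V,
    (G.Adj (x ∘ σ) (y ∘ σ) ↔ G.Adj x y)

/-- Every monochromatic subset of `V` has fewer than `k` elements. -/
def NoMono {X : Type} (V : Set X) (G : SimpleGraph X) (k : ℕ) : Prop :=
  ∀ K : Finset X, (K : Set X) ⊆ V → (G.IsClique (K : Set X) ∨ G.IsIndepSet (K : Set X)) →
    K.card < k

end Pool.Agent.Run7.h414.BS
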