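import Pool.Agent.Run7.h414.BS.Defs

set_option autoImplicit false

namespace Pool.Agent.Run7.h414.BS

open Finset

theorem card_const_on {E : Type} [Fintype E] [DecidableEq E] (S : Finset E) (v : Bool) :
    (univ.filter fun f : E → Bool => ∀ e ∈ S, f e = v).card = 2 ^ (Fintype.card E - S.card) := by
  classical
  have h : (univ.filter fun f : E → Bool => ∀ e ∈ S, f e = v) =
      Fintype.piFinset (fun e => if e ∈ S then {v} else univ) := by
    ext f
    simp only [mem_filter, mem_univ, true_and, Fintype.mem_piFinset]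
    constructor
    · intro h e
      by_cases he : e ∈ S
      · rw [if_pos he, mem_singleton]
        exact h e he
      · rw [if_neg he]
        exact mem_univ _
    · intro h e he
      have := h e
      rw [if_pos he, mem_singleton] at this
      exact this
  rw [h, Fintype.card_piFinset]
  have h2 : ∀ e : E, (if e ∈ S then ({v} : Finset Bool) else univ).card =
      if e ∈ S then 1 else 2 := by
    intro e
    by_cases he : e ∈ S
    · rw [if_pos he, if_pos he, card_singleton]
    · rw [if_neg he, if_neg he]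
      simp
  rw [prod_congr rfl fun e _ => h2 e, prod_ite, prod_const_one, one_mul, prod_const]
  congr 1
  rw [← card_compl]
  congr 1
  ext e
  simp

theorem pow_lt (k : ℕ) (hk : 3 ≤ k) : 4 * 2 ^ k < k.factorial ^ 2 := by
  induction k, hk using Nat.le_induction with
  | base => decide
  | succ n hn ih =>
    rw [Nat.factorial_succ, mul_pow, pow_succ]
    have h1 : 2 ≤ (n + 1) ^ 2 := by nlinarith
    calc 4 * (2 ^ n * 2) = 2 * (4 * 2 ^ n) := by ring
      _ < 2 * n.factorial ^ 2 := by omega
      _ ≤ (n + 1) ^ 2 * n.factorial ^ 2 := Nat.mul_le_mul_right _ h1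

theorem choose_lt (N k r : ℕ) (hk : 3 ≤ k) (hN : N = 2 ^ r) (hr : 2 * r ≤ k) :
    2 * N.choose k < 2 ^ (k.choose 2) := by
  have h1 : N.choose k * k.factorial ≤ N ^ k := by
    rw [mul_comm, ← Nat.descFactorial_eq_factorial_mul_choose]
    exact Nat.descFactorial_le_pow N k
  have h2 : (2 * N.choose k) ^ 2 < (2 ^ (k.choose 2)) ^ 2 := by
    have h3 : (k.factorial) ^ 2 * (2 * N.choose k) ^ 2 < (k.factorial) ^ 2 * (2 ^ (k.choose 2)) ^ 2 := by
      calc (k.factorial) ^ 2 * (2 * N.choose k) ^ 2 = 4 * (N.choose k * k.factorial) ^ 2 := by ring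
        _ ≤ 4 * (N ^ k) ^ 2 := by gcongr
        _ = 4 * (2 ^ (2 * r)) ^ k := by rw [hN]; ring
        _ ≤ 4 * (2 ^ k) ^ k := by
          gcongr
          norm_num
        _ = (4 * 2 ^ k) * 2 ^ (k * (k - 1)) := by
          obtain ⟨n, rfl⟩ : ∃ n, k = n + 1 := ⟨k - 1, by omega⟩
          rw [Nat.add_sub_cancel, ← pow_mul, mul_assoc, ← pow_add]
          congr 2
          ring
        _ < k.factorial ^ 2 * 2 ^ (k * (k - 1)) := by
          apply Nat.mul_lt_mul_of_pos_right (pow_lt k hk)
          positivity
        _ = k.factorial ^ 2 * (2 ^ (k.choose 2)) ^ 2 := by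
          rw [← pow_mul, Nat.choose_two_right, Nat.div_mul_cancel]
          exact (Nat.even_mul_pred_self k).two_dvd
    exact lt_of_mul_lt_mul_left h3 (Nat.zero_le _)
  exact lt_of_pow_lt_pow_left₀ 2 (Nat.zero_le _) h2

/-- Erdős's lower bound. -/
theorem erdos (X : Type) [Fintype X] [DecidableEq X] (k r : ℕ) (hk : 3 ≤ k)
    (hX : Fintype.card X = 2 ^ r) (hr : 2 * r ≤ k) :
    ∃ G : SimpleGraph X, NoMono Set.univ G k := by
  classical
  set B : Finset X → Bool → Finset (Finset X → Bool) := fun K v =>
    univ.filter fun f : Finset X → Bool => ∀ e ∈ K.powersetCard 2, f e = v with hB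
  set U : Finset (Finset X → Bool) :=
    ((univ : Finset X).powersetCard k).biUnion fun K => B K true ∪ B K false with hU
  have hm : ∀ K ∈ (univ : Finset X).powersetCard k, ∀ v, (B K v).card =
      2 ^ (Fintype.card (Finset X) - k.choose 2) := by
    intro K hK v
    rw [hB]
    dsimp only
    rw [card_const_on, card_powersetCard, (mem_powersetCard.1 hK).2]
  have hUc : U.card < 2 ^ Fintype.card (Finset X) := by
    by_cases hN : (Fintype.card X).choose k = 0
    · have : U = ∅ := by
        rw [hU]
        have h0 : (univ : Finset X).powersetCard k = ∅ := by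
          rw [← card_eq_zero, card_powersetCard, card_univ, hN]
        rw [h0, biUnion_empty]
      rw [this, card_empty]
      positivity
    have hkX : k ≤ Fintype.card X := by
      by_contra hc
      exact hN (Nat.choose_eq_zero_of_lt (not_le.1 hc))
    have hle : k.choose 2 ≤ Fintype.card (Finset X) := by
      obtain ⟨K, hK⟩ : ((univ : Finset X).powersetCard k).Nonempty :=
        powersetCard_nonempty.2 (by rw [card_univ]; exact hkX)
      have := card_le_univ (K.powersetCard 2)
      rw [card_powersetCard, (mem_powersetCard.1 hK).2] at this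
      exact this
    calc U.card ≤ ∑ K ∈ (univ : Finset X).powersetCard k, (B K true ∪ B K false).card :=
          card_biUnion_le
      _ ≤ ∑ K ∈ (univ : Finset X).powersetCard k,
          (2 * 2 ^ (Fintype.card (Finset X) - k.choose 2)) := by
          refine sum_le_sum fun K hK => ?_
          refine (card_union_le _ _).trans ?_
          rw [hm K hK, hm K hK]
          omega
      _ = (2 * (Fintype.card X).choose k) * 2 ^ (Fintype.card (Finset X) - k.choose 2) := by
          rw [sum_const, card_powersetCard, card_univ, smul_eq_mul]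
          ring
      _ < 2 ^ (k.choose 2) * 2 ^ (Fintype.card (Finset X) - k.choose 2) := by
          apply Nat.mul_lt_mul_of_pos_right (choose_lt _ k r hk hX hr)
          positivity
      _ = 2 ^ Fintype.card (Finset X) := by
          rw [← pow_add]
          congr 1
          omega
  obtain ⟨f, hf⟩ : ∃ f : Finset X → Bool, f ∉ U := by
    by_contra hc
    push Not at hc
    have h1 : U = univ := eq_univ_iff_forall.2 hc
    rw [h1, card_univ, Fintype.card_fun, Fintype.card_bool] at hUc
    exact lt_irrefl _ hUc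
  refine ⟨⟨fun x y => x ≠ y ∧ f {x, y} = true, ⟨fun x y h => ⟨h.1.symm, by rw [pair_comm]; exact h.2⟩⟩,
    ⟨fun x h => h.1 rfl⟩⟩, ?_⟩
  intro K _ hK
  by_contra hc
  rw [not_lt] at hc
  obtain ⟨L, hL, cL⟩ := exists_subset_card_eq hc
  apply hf
  rw [hU, mem_biUnion]
  refine ⟨L, mem_powersetCard.2 ⟨subset_univ _, cL⟩, ?_⟩
  rcases hK with hK | hK
  · apply mem_union_left
    refine mem_filter.2 ⟨mem_univ _, fun e he => ?_⟩
    obtain ⟨h1, h2⟩ := mem_powersetCard.1 he
    obtain ⟨x, y, hxy, rfl⟩ := card_eq_two.1 h2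
    have hx : x ∈ K := hL (h1 (mem_insert_self _ _))
    have hy : y ∈ K := hL (h1 (mem_insert_of_mem (mem_singleton_self _)))
    exact (hK (mem_coe.2 hx) (mem_coe.2 hy) hxy).2
  · apply mem_union_right
    refine mem_filter.2 ⟨mem_univ _, fun e he => ?_⟩
    obtain ⟨h1, h2⟩ := mem_powersetCard.1 he
    obtain ⟨x, y, hxy, rfl⟩ := card_eq_two.1 h2
    have hx : x ∈ K := hL (h1 (mem_insert_self _ _))
    have hy : y ∈ K := hL (h1 (mem_insert_of_mem (mem_singleton_self _)))
    have := hK (mem_coe.2 hx) (mem_coe.2 hy) hxy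
    by_contra hcc
    exact this ⟨hxy, by simpa using hcc⟩

theorem erdos_words (k r : ℕ) (hk : 3 ≤ k) (hr : 2 * r ≤ k) :
    ∃ G : SimpleGraph (Fin r → Bool), BlockSym (id : Fin r → Fin r) Set.univ G ∧
      NoMono Set.univ G k := by
  obtain ⟨G, hG⟩ := erdos (Fin r → Bool) k r hk (by simp) hr
  refine ⟨G, ⟨fun _ _ _ _ => Set.mem_univ _, ?_⟩, hG⟩
  intro σ hσ x _ y _
  have h1 : σ = 1 := by
    ext i
    simpa using congrArg Fin.val (hσ i)
  subst h1
  exact Iff.rfl

end Pool.Agent.Run7.h414.BS
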