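import Pool.Agent.Run7.h414.BS.Perm

set_option autoImplicit false

namespace Pool.Agent.Run7.h414.BS

open Finset

theorem exists_parts {I ι : Type} [DecidableEq I] [Fintype ι] [DecidableEq ι] (D : Finset I)
    (m : ι → ℕ) (h : ∑ o, m o ≤ D.card) :
    ∃ P : Finset ι → Finset I, (∀ U, P U ⊆ D) ∧ (∀ U, (P U).card = ∑ o ∈ U, m o) ∧
      ∀ U W, P U \ P W = P (U \ W) := by
  classical
  have h1 : Fintype.card ((o : ι) × Fin (m o)) ≤ Fintype.card {i // i ∈ D} := by
    rw [Fintype.card_sigma, Fintype.card_coe]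
    simpa using h
  obtain ⟨e⟩ := Function.Embedding.nonempty_of_card_le h1
  set e' : ((o : ι) × Fin (m o)) ↪ I := e.trans (Function.Embedding.subtype _) with he'
  have hmem : ∀ p, e' p ∈ D := fun p => (e p).2
  refine ⟨fun U => (U.sigma fun _ => univ).map e', ?_, ?_, ?_⟩
  · intro U i hi
    obtain ⟨p, -, rfl⟩ := mem_map.1 hi
    exact hmem p
  · intro U
    rw [card_map, card_sigma]
    simp
  · intro U W
    ext i
    simp only [mem_sdiff, mem_map, mem_sigma, mem_univ, and_true]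
    constructor
    · rintro ⟨⟨p, hp, rfl⟩, h2⟩
      exact ⟨p, ⟨hp, fun hw => h2 ⟨p, hw, rfl⟩⟩, rfl⟩
    · rintro ⟨p, ⟨hp, hw⟩, rfl⟩
      refine ⟨⟨p, hp, rfl⟩, ?_⟩
      rintro ⟨p', hp', he⟩
      rw [e'.injective he] at hp'
      exact hw hp'

variable {I R A : Type} [Fintype I] [DecidableEq I]

/-- The colour of a pair of words at distance `2 d` in the arena `D`. -/
def gcol (G : SimpleGraph (I → A)) (x : I → A) (D : Finset I) (α β : A) (F : ℕ) (d : ℕ) : Prop :=
  ∃ S T : Finset I, S ⊆ D ∧ T ⊆ D ∧ S.card = F ∧ T.card = F ∧ (S \ T).card = d ∧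
    G.Adj (wd x D α β S) (wd x D α β T)

theorem mem_of_mem {b : I → R} {V : Set (I → A)} {G : SimpleGraph (I → A)}
    (hsym : BlockSym b V G) (x : I → A) (D : Finset I) (j : R) (hD : ∀ i ∈ D, b i = j) (α β : A)
    (F : ℕ) (S0 : Finset I) (h0 : S0 ⊆ D) (c0 : S0.card = F) (hx : wd x D α β S0 ∈ V)
    (S : Finset I) (hS : S ⊆ D) (cS : S.card = F) : wd x D α β S ∈ V := by
  obtain ⟨σ, h1, h2, -⟩ := exists_sigma b x α β j D S0 S0 S S F hD h0 h0 hS hS c0 c0 cS cS (by simp)
  rw [← h2]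
  exact hsym.mem σ h1 _ hx

theorem adj_iff {b : I → R} {V : Set (I → A)} {G : SimpleGraph (I → A)}
    (hsym : BlockSym b V G) (x : I → A) (D : Finset I) (j : R) (hD : ∀ i ∈ D, b i = j) (α β : A)
    (F : ℕ) (S0 : Finset I) (h0 : S0 ⊆ D) (c0 : S0.card = F) (hx : wd x D α β S0 ∈ V)
    (S T : Finset I) (hS : S ⊆ D) (cS : S.card = F) (hT : T ⊆ D) (cT : T.card = F) :
    G.Adj (wd x D α β S) (wd x D α β T) ↔ gcol G x D α β F (S \ T).card := by
  constructor
  · intro h
    exact ⟨S, T, hS, hT, cS, cT, rfl, h⟩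
  · rintro ⟨S', T', hS', hT', cS', cT', hd, h⟩
    obtain ⟨σ, h1, h2, h3⟩ := exists_sigma b x α β j D S' T' S T F hD hS' hT' hS hT cS' cT' cS cT hd
    rw [← h2, ← h3]
    refine (hsym.adj σ h1 _ ?_ _ ?_).2 h
    · exact mem_of_mem hsym x D j hD α β F S0 h0 c0 hx S' hS' cS'
    · exact mem_of_mem hsym x D j hD α β F S0 h0 c0 hx T' hT' cT'

/-- The choice of one chunk of every kind, and the fixed part. -/
def pick {t N : ℕ} (h : Fin t → Fin N) : Finset (Option (Fin t × Fin N)) :=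
  insert none (univ.image fun i => some (i, h i))

theorem pick_sdiff {t N : ℕ} (h h' : Fin t → Fin N) :
    pick h \ pick h' = (univ.filter fun i => h i ≠ h' i).image fun i => some (i, h i) := by
  ext o
  rcases o with _ | ⟨i, n⟩
  · simp [pick]
  · simp only [pick, mem_sdiff, mem_insert, mem_image, mem_univ, true_and, mem_filter,
      Option.some.injEq, Prod.mk.injEq, reduceCtorEq, false_or, ne_eq]
    constructor
    · rintro ⟨⟨i', rfl, rfl⟩, h2⟩
      refine ⟨i', ?_, rfl, rfl⟩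
      intro he
      exact h2 ⟨i', rfl, he.symm⟩
    · rintro ⟨i', h1, rfl, rfl⟩
      refine ⟨⟨i', rfl, rfl⟩, ?_⟩
      rintro ⟨i'', rfl, he⟩
      exact h1 he.symm

theorem sum_image_some {t N : ℕ} (h : Fin t → Fin N) (s : Finset (Fin t))
    (m : Option (Fin t × Fin N) → ℕ) :
    ∑ o ∈ s.image (fun i => some (i, h i)), m o = ∑ i ∈ s, m (some (i, h i)) := by
  apply sum_image
  intro i _ i' _ he
  simp only [Option.some.injEq, Prod.mk.injEq] at he
  exact he.1

theorem hom_of_fold {b : I → R} {V : Set (I → A)} {G : SimpleGraph (I → A)}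
    (hsym : BlockSym b V G) (x : I → A) (D : Finset I) (j : R) (hD : ∀ i ∈ D, b i = j) (α β : A)
    (hαβ : α ≠ β) (F : ℕ) (S0 : Finset I) (h0 : S0 ⊆ D) (c0 : S0.card = F)
    (hx : wd x D α β S0 ∈ V) (t N : ℕ) (ht : 0 < t) (hN : 0 < N) (a : ℕ → ℕ) (κ : Prop)
    (hpos : ∀ i, 0 < a i)
    (hfold : ∀ s : Finset ℕ, s.Nonempty → s ⊆ range t → ∑ i ∈ s, a i ≤ F ∧
      (gcol G x D α β F (∑ i ∈ s, a i) ↔ κ))
    (hbig : F + (N - 1) * ∑ i ∈ range t, a i ≤ D.card) :
    ∃ K : Finset (I → A), (K : Set (I → A)) ⊆ V ∧ K.card = N ^ t ∧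
      (G.IsClique (K : Set (I → A)) ∨ G.IsIndepSet (K : Set (I → A))) := by
  classical
  set sa : ℕ := ∑ i ∈ range t, a i with hs
  have hsF : sa ≤ F := (hfold (range t) (by simpa using ht.ne') subset_rfl).1
  have hsfin : ∑ i : Fin t, a i = sa := by
    rw [hs, Fin.sum_univ_eq_sum_range (fun i => a i) t]
  set m : Option (Fin t × Fin N) → ℕ := fun o => o.elim (F - sa) (fun p => a p.1) with hm
  have hsum : ∑ o, m o ≤ D.card := by
    rw [Fintype.sum_option, Fintype.sum_prod_type]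
    have h1 : ∀ i : Fin t, ∑ n : Fin N, m (some (i, n)) = N * a i := by
      intro i
      simp [hm]
    rw [sum_congr rfl fun i _ => h1 i, ← mul_sum, hsfin]
    have h2 : m none = F - sa := rfl
    rw [h2]
    obtain ⟨n, rfl⟩ : ∃ n, N = n + 1 := ⟨N - 1, by omega⟩
    rw [Nat.add_sub_cancel] at hbig
    rw [add_mul, one_mul]
    omega
  obtain ⟨P, hPD, hPc, hPd⟩ := exists_parts D m hsum
  have hcard : ∀ h : Fin t → Fin N, (P (pick h)).card = F := by
    intro h
    rw [hPc, pick, sum_insert (by simp), sum_image_some]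
    have h2 : m none = F - sa := rfl
    have h3 : ∑ i, m (some (i, h i)) = sa := hsfin
    rw [h2, h3]
    omega
  have hdiff : ∀ h h' : Fin t → Fin N, (P (pick h) \ P (pick h')).card =
      ∑ i ∈ (univ.filter fun i => h i ≠ h' i).map Fin.valEmbedding, a i := by
    intro h h'
    rw [hPd, pick_sdiff, hPc, sum_image_some, sum_map]
    rfl
  set f : (Fin t → Fin N) → (I → A) := fun h => wd x D α β (P (pick h)) with hf
  have hne : ∀ h h' : Fin t → Fin N, h ≠ h' →
      ((univ.filter fun i => h i ≠ h' i).map Fin.valEmbedding).Nonempty := by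
    intro h h' hh
    obtain ⟨i, hi⟩ := Function.ne_iff.1 hh
    exact ⟨i, mem_map.2 ⟨i, by simpa using hi, rfl⟩⟩
  have hsub : ∀ h h' : Fin t → Fin N,
      (univ.filter fun i => h i ≠ h' i).map Fin.valEmbedding ⊆ range t := by
    intro h h' i hi
    obtain ⟨i', -, rfl⟩ := mem_map.1 hi
    exact mem_range.2 i'.2
  have hinj : Function.Injective f := by
    intro h h' hh
    by_contra hc
    have h1 : 0 < (P (pick h) \ P (pick h')).card := by
      rw [hdiff]
      exact sum_pos (fun i _ => hpos i) (hne h h' hc)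
    obtain ⟨i, hi⟩ := card_pos.1 h1
    rw [mem_sdiff] at hi
    have h2 := congrFun hh i
    have hiD : i ∈ D := hPD _ hi.1
    simp only [hf, wd, if_pos hiD, if_pos hi.1, if_neg hi.2] at h2
    exact hαβ h2.symm
  have hadj : ∀ h h' : Fin t → Fin N, h ≠ h' → (G.Adj (f h) (f h') ↔ κ) := by
    intro h h' hh
    rw [hf]
    rw [adj_iff hsym x D j hD α β F S0 h0 c0 hx (P (pick h)) (P (pick h')) (hPD _) (hcard h)
      (hPD _) (hcard h'), hdiff]
    exact (hfold _ (hne h h' hh) (hsub h h')).2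
  refine ⟨univ.map ⟨f, hinj⟩, ?_, ?_, ?_⟩
  · intro w hw
    simp only [coe_map, Function.Embedding.coeFn_mk, coe_univ, Set.image_univ, Set.mem_range] at hw
    obtain ⟨h, rfl⟩ := hw
    exact mem_of_mem hsym x D j hD α β F S0 h0 c0 hx _ (hPD _) (hcard h)
  · rw [card_map]
    simp
  · by_cases hκ : κ
    · left
      intro u hu v hv huv
      simp only [coe_map, Function.Embedding.coeFn_mk, coe_univ, Set.image_univ,
        Set.mem_range] at hu hv
      obtain ⟨h, rfl⟩ := hu
      obtain ⟨h', rfl⟩ := hv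
      exact (hadj h h' (fun e => huv (by rw [e]))).2 hκ
    · right
      intro u hu v hv huv
      simp only [coe_map, Function.Embedding.coeFn_mk, coe_univ, Set.image_univ,
        Set.mem_range] at hu hv
      obtain ⟨h, rfl⟩ := hu
      obtain ⟨h', rfl⟩ := hv
      exact fun hc => hκ ((hadj h h' (fun e => huv (by rw [e]))).1 hc)

end Pool.Agent.Run7.h414.BS
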