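import Pool.Agent.Run7.h414.BS.Block
import Pool.Agent.Run7.h414.BS.Erdos

set_option autoImplicit false

namespace Pool.Agent.Run7.h414.BS

open Finset

theorem exists_t (ε : ℝ) (hε : 0 < ε) : ∃ t : ℕ, 0 < t ∧ ∀ k : ℕ, 1 ≤ k →
    (k : ℝ) ^ (1 / (t : ℝ)) ≤ (k : ℝ) ^ ε := by
  obtain ⟨t, ht⟩ := exists_nat_gt (1 / ε)
  have ht0 : (0 : ℝ) < t := lt_trans (by positivity) ht
  refine ⟨t, by exact_mod_cast ht0, fun k hk => ?_⟩
  apply Real.rpow_le_rpow_of_exponent_le (by exact_mod_cast hk)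
  rw [div_le_iff₀ ht0]
  rw [div_lt_iff₀ hε] at ht
  linarith

theorem exists_N (t : ℕ) (ht : 0 < t) (k : ℕ) (hk : 1 ≤ k) : ∃ N : ℕ, 0 < N ∧ k ≤ N ^ t ∧
    (N : ℝ) ≤ 2 * (k : ℝ) ^ (1 / (t : ℝ)) := by
  have h1 : (1 : ℝ) ≤ (k : ℝ) ^ (1 / (t : ℝ)) :=
    Real.one_le_rpow (by exact_mod_cast hk) (by positivity)
  refine ⟨⌈(k : ℝ) ^ (1 / (t : ℝ))⌉₊, Nat.ceil_pos.2 (by linarith), ?_, ?_⟩
  · have h2 : ((k : ℝ) ^ (1 / (t : ℝ))) ^ t = k := by
      rw [one_div]
      exact Real.rpow_inv_natCast_pow (Nat.cast_nonneg k) ht.ne'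
    have h3 : (k : ℝ) ≤ (⌈(k : ℝ) ^ (1 / (t : ℝ))⌉₊ : ℝ) ^ t := by
      calc (k : ℝ) = ((k : ℝ) ^ (1 / (t : ℝ))) ^ t := h2.symm
        _ ≤ _ := by
          apply pow_le_pow_left₀ (by linarith)
          exact Nat.le_ceil _
    exact_mod_cast h3
  · have := Nat.ceil_lt_add_one (show (0 : ℝ) ≤ (k : ℝ) ^ (1 / (t : ℝ)) by linarith)
    linarith

/-- Part 1. -/
theorem general (ε : ℝ) (hε : 0 < ε) : ∃ C : ℝ, ∀ (I R A : Type) [Fintype I] [Fintype R]
    [Fintype A] (b : I → R) (V : Set (I → A)) (G : SimpleGraph (I → A)) (k : ℕ), 1 ≤ k →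
    BlockSym b V G → NoMono V G k →
    Real.log V.ncard ≤ C * Fintype.card R * (Fintype.card A * Real.log (Fintype.card A)) *
      (k : ℝ) ^ ε := by
  classical
  obtain ⟨t, ht, htε⟩ := exists_t ε hε
  obtain ⟨F, hF⟩ := block_card t ht
  refine ⟨4 * F + 1 + 2 * F / ε, fun I R A _ _ _ b V G k hk hsym hno => ?_⟩
  set q := Fintype.card A with hq
  have hkε : (1 : ℝ) ≤ (k : ℝ) ^ ε := Real.one_le_rpow (by exact_mod_cast hk) hε.le
  have hC : 0 ≤ 4 * (F : ℝ) + 1 + 2 * F / ε := by positivity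
  by_cases hq2 : q ≤ 1
  · have h1 : V.ncard ≤ 1 := by
      have hsub : Subsingleton A := Fintype.card_le_one_iff_subsingleton.1 hq2
      exact Set.ncard_le_one_of_subsingleton V
    have h2 : Real.log V.ncard = 0 := by
      interval_cases V.ncard <;> simp
    rw [h2]
    have : (0 : ℝ) ≤ Real.log q := Real.log_natCast_nonneg q
    positivity
  push Not at hq2
  have hA : Nonempty A := Fintype.card_pos_iff.1 (by omega)
  obtain ⟨N, hN, hkN, hNle⟩ := exists_N t ht k hk
  set M : ℕ := q ^ (q * (N * F)) * (q * (q * (q * k)) ^ (q * F)) with hM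
  have hprod : V.ncard ≤ M ^ Fintype.card R := by
    refine (ncard_le_prod b V).trans ?_
    rw [← card_univ]
    refine prod_le_pow_card _ _ _ fun j _ => ?_
    exact hF I R A b V G k N j hsym hno hN hk hkN
  have hq0 : (0 : ℝ) < q := by exact_mod_cast (by omega : 0 < q)
  have hk0 : (0 : ℝ) < k := by exact_mod_cast hk
  have hlogq : 1 / 2 ≤ Real.log q := by
    have h1 : Real.log 2 ≤ Real.log q := Real.log_le_log (by norm_num) (by exact_mod_cast hq2)
    have := Real.log_two_gt_d9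
    linarith
  have hlogM : Real.log M = (q * (N * F) + 1 + 2 * (q * F)) * Real.log q +
      (q * F) * Real.log k := by
    rw [hM]
    push_cast
    rw [Real.log_mul (by positivity) (by positivity), Real.log_mul (by positivity) (by positivity),
      Real.log_pow, Real.log_pow, Real.log_mul (by positivity) (by positivity),
      Real.log_mul (by positivity) (by positivity)]
    push_cast
    ring
  have hlogk : Real.log k ≤ (k : ℝ) ^ ε / ε := Real.log_le_rpow_div hk0.le hε
  have hM1 : Real.log M ≤ (4 * F + 1 + 2 * F / ε) * (q * Real.log q) * (k : ℝ) ^ ε := by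
    rw [hlogM]
    have hNk : (N : ℝ) ≤ 2 * (k : ℝ) ^ ε := hNle.trans (by linarith [htε k hk])
    have e1 : (q : ℝ) * (N * F) * Real.log q ≤ 2 * F * (q * Real.log q) * (k : ℝ) ^ ε := by
      have : (N : ℝ) * ((F : ℝ) * (q * Real.log q)) ≤
          2 * (k : ℝ) ^ ε * ((F : ℝ) * (q * Real.log q)) :=
        mul_le_mul_of_nonneg_right hNk (by positivity)
      linarith [this]
    have hq1 : (1 : ℝ) ≤ q := by exact_mod_cast (by omega : 1 ≤ q)
    have e2 : (1 : ℝ) * Real.log q ≤ (q * Real.log q) * (k : ℝ) ^ ε := by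
      calc (1 : ℝ) * Real.log q ≤ q * Real.log q :=
            mul_le_mul_of_nonneg_right hq1 (by linarith)
        _ ≤ (q * Real.log q) * (k : ℝ) ^ ε := le_mul_of_one_le_right (by positivity) hkε
    have e3 : 2 * ((q : ℝ) * F) * Real.log q ≤ 2 * F * (q * Real.log q) * (k : ℝ) ^ ε := by
      calc 2 * ((q : ℝ) * F) * Real.log q = 2 * F * (q * Real.log q) := by ring
        _ ≤ _ := le_mul_of_one_le_right (by positivity) hkε
    have e4 : (q : ℝ) * F * Real.log k ≤ 2 * F / ε * (q * Real.log q) * (k : ℝ) ^ ε := by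
      calc (q : ℝ) * F * Real.log k ≤ q * F * ((k : ℝ) ^ ε / ε) :=
            mul_le_mul_of_nonneg_left hlogk (by positivity)
        _ = F / ε * q * (k : ℝ) ^ ε * 1 := by ring
        _ ≤ F / ε * q * (k : ℝ) ^ ε * (2 * Real.log q) :=
            mul_le_mul_of_nonneg_left (by linarith) (by positivity)
        _ = _ := by ring
    calc _ = (q : ℝ) * (N * F) * Real.log q + 1 * Real.log q + 2 * ((q : ℝ) * F) * Real.log q +
          (q : ℝ) * F * Real.log k := by ring
      _ ≤ 2 * F * (q * Real.log q) * (k : ℝ) ^ ε + (q * Real.log q) * (k : ℝ) ^ ε +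
          2 * F * (q * Real.log q) * (k : ℝ) ^ ε +
          2 * F / ε * (q * Real.log q) * (k : ℝ) ^ ε := by linarith
      _ = _ := by ring
  by_cases hV : V.ncard = 0
  · rw [hV]
    simp only [Nat.cast_zero, Real.log_zero]
    positivity
  calc Real.log V.ncard ≤ Real.log ((M : ℝ) ^ Fintype.card R) := by
        apply Real.log_le_log (by exact_mod_cast Nat.pos_of_ne_zero hV)
        exact_mod_cast hprod
    _ = Fintype.card R * Real.log M := Real.log_pow _ _
    _ ≤ Fintype.card R * ((4 * F + 1 + 2 * F / ε) * (q * Real.log q) * (k : ℝ) ^ ε) :=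
        mul_le_mul_of_nonneg_left hM1 (by positivity)
    _ = _ := by ring

/-- Part 2. -/
theorem cube (ε : ℝ) (hε : 0 < ε) : ∃ C : ℝ, ∀ (I R A : Type) [Fintype I] [Fintype R]
    [Nontrivial A] (b : I → R) (G : SimpleGraph (I → A)) (k : ℕ), 1 ≤ k →
    BlockSym b Set.univ G → NoMono Set.univ G k →
    (Fintype.card I : ℝ) ≤ C * Fintype.card R * (k : ℝ) ^ ε := by
  classical
  obtain ⟨t, ht, htε⟩ := exists_t ε hε
  obtain ⟨F, hF⟩ := block_fold t ht
  refine ⟨2 * F, fun I R A _ _ _ b G k hk hsym hno => ?_⟩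
  obtain ⟨N, hN, hkN, hNle⟩ := exists_N t ht k hk
  obtain ⟨α, β, hαβ⟩ := exists_pair_ne A
  have hblock : ∀ j : R, (univ.filter fun i => b i = j).card ≤ N * F := by
    intro j
    by_cases hs : (univ.filter fun i => b i = j).card < F
    · exact hs.le.trans (Nat.le_mul_of_pos_left _ hN)
    rw [not_lt] at hs
    obtain ⟨T, hT, cT⟩ := exists_subset_card_eq hs
    have hT' : ∀ i ∈ T, b i = j := fun i hi => (mem_filter.1 (hT hi)).2
    set x : I → A := fun i => if i ∈ T then β else α with hx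
    have hxβ : ∀ i, x i = β ↔ i ∈ T := by
      intro i
      rw [hx]
      by_cases hi : i ∈ T <;> simp [hi, hαβ]
    have hxα : ∀ i, x i = α ↔ i ∉ T := by
      intro i
      rw [hx]
      by_cases hi : i ∈ T <;> simp [hi, hαβ.symm]
    have h1 : cnt b x j β = F := by
      unfold cnt
      rw [← cT]
      congr 1
      ext i
      simp only [mem_filter, mem_univ, true_and, hxβ]
      exact ⟨fun h => h.2, fun h => ⟨hT' i h, h⟩⟩
    have h2 : cnt b x j α = (univ.filter fun i => b i = j).card - F := by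
      unfold cnt
      rw [← cT, ← card_sdiff_of_subset hT]
      congr 1
      ext i
      simp only [mem_filter, mem_univ, true_and, hxα, mem_sdiff]
    have h3 := hF I R A b Set.univ G k N x j α β hsym hno (Set.mem_univ _) hαβ hN hkN h1.ge
    rw [h2] at h3
    obtain ⟨n, rfl⟩ : ∃ n, N = n + 1 := ⟨N - 1, by omega⟩
    rw [Nat.add_sub_cancel] at h3
    rw [add_mul, one_mul]
    omega
  have hsum : Fintype.card I ≤ Fintype.card R * (N * F) := by
    have h1 := card_eq_sum_card_fiberwise (f := b) (s := (univ : Finset I))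
      (t := (univ : Finset R)) (fun _ _ => mem_univ _)
    rw [← card_univ, h1, ← card_univ, ← smul_eq_mul]
    exact sum_le_card_nsmul _ _ _ fun j _ => hblock j
  have hsum' : (Fintype.card I : ℝ) ≤ Fintype.card R * (N * F) := by exact_mod_cast hsum
  refine hsum'.trans ?_
  have hNk : (N : ℝ) ≤ 2 * (k : ℝ) ^ ε := hNle.trans (by linarith [htε k hk])
  calc (Fintype.card R : ℝ) * (N * F) ≤ Fintype.card R * ((2 * (k : ℝ) ^ ε) * F) := by gcongr
    _ = _ := by ring

end Pool.Agent.Run7.h414.BS
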