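import Pool.Agent.Run7.h414.BS.Defs

set_option autoImplicit false

namespace Pool.Agent.Run7.h414.BS

open Finset

/-- Functions with the same fibre sizes differ by a permutation. -/
theorem exists_perm_of_card {I C : Type} [Fintype I] [DecidableEq C] (f g : I → C)
    (h : ∀ c, (univ.filter fun i => f i = c).card = (univ.filter fun i => g i = c).card) :
    ∃ σ : Equiv.Perm I, ∀ i, f (σ i) = g i := by
  classical
  have e : ∀ c, Nonempty ({i // g i = c} ≃ {i // f i = c}) := by
    intro c
    apply Fintype.card_eq.1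
    rw [Fintype.card_subtype, Fintype.card_subtype, h c]
  exact ⟨Equiv.ofFiberEquiv (fun c => (e c).some), fun i => Equiv.ofFiberEquiv_map _ i⟩

/-- The word which is `x` outside of `D`, `β` on `S` and `α` on `D \ S`. -/
def wd {I A : Type} [DecidableEq I] (x : I → A) (D : Finset I) (α β : A) (S : Finset I) : I → A :=
  fun i => if i ∈ D then (if i ∈ S then β else α) else x i

section

variable {I R A : Type} [Fintype I] [DecidableEq I]

/-- The code of a position with respect to two subsets of `D`. -/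
def cde (D S T : Finset I) : I → I ⊕ (Bool × Bool) :=
  fun i => if i ∈ D then Sum.inr (decide (i ∈ S), decide (i ∈ T)) else Sum.inl i

omit [Fintype I] in
theorem cde_eq_inl (D S T : Finset I) (i j : I) : cde D S T i = Sum.inl j ↔ i ∉ D ∧ i = j := by
  unfold cde
  by_cases h : i ∈ D <;> simp [h]

omit [Fintype I] in
theorem cde_eq_inr (D S T : Finset I) (i : I) (p q : Bool) :
    cde D S T i = Sum.inr (p, q) ↔ i ∈ D ∧ decide (i ∈ S) = p ∧ decide (i ∈ T) = q := by
  unfold cde
  by_cases h : i ∈ D <;> simp [h]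

theorem card_cde (D S T S' T' : Finset I) (F : ℕ) (hS : S ⊆ D) (hT : T ⊆ D) (hS' : S' ⊆ D)
    (hT' : T' ⊆ D) (cS : S.card = F) (cT : T.card = F) (cS' : S'.card = F) (cT' : T'.card = F)
    (hd : (S \ T).card = (S' \ T').card) (c : I ⊕ (Bool × Bool)) :
    (univ.filter fun i => cde D S T i = c).card = (univ.filter fun i => cde D S' T' i = c).card := by
  have key : ∀ (S T : Finset I), S ⊆ D → T ⊆ D → S.card = F → T.card = F →
      (univ.filter fun i => cde D S T i = Sum.inr (true, true)) = S ∩ T ∧
      (univ.filter fun i => cde D S T i = Sum.inr (true, false)) = S \ T ∧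
      (univ.filter fun i => cde D S T i = Sum.inr (false, true)) = T \ S ∧
      (univ.filter fun i => cde D S T i = Sum.inr (false, false)) = D \ (S ∪ T) := by
    intro S T hS hT _ _
    refine ⟨?_, ?_, ?_, ?_⟩
    · ext i
      simp only [mem_filter, mem_univ, true_and, cde_eq_inr, decide_eq_true_eq, mem_inter]
      exact ⟨fun h => h.2, fun h => ⟨hS h.1, h⟩⟩
    · ext i
      simp only [mem_filter, mem_univ, true_and, cde_eq_inr, decide_eq_true_eq,
        decide_eq_false_iff_not, mem_sdiff]
      exact ⟨fun h => h.2, fun h => ⟨hS h.1, h⟩⟩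
    · ext i
      simp only [mem_filter, mem_univ, true_and, cde_eq_inr, decide_eq_true_eq,
        decide_eq_false_iff_not, mem_sdiff]
      exact ⟨fun h => ⟨h.2.2, h.2.1⟩, fun h => ⟨hT h.1, h.2, h.1⟩⟩
    · ext i
      simp only [mem_filter, mem_univ, true_and, cde_eq_inr,
        decide_eq_false_iff_not, mem_sdiff, mem_union, not_or]
  have card1 : ∀ (S T : Finset I), S ⊆ D → T ⊆ D → S.card = F → T.card = F →
      (S ∩ T).card = F - (S \ T).card ∧ (T \ S).card = (S \ T).card ∧
      (D \ (S ∪ T)).card = D.card - (F + (S \ T).card) := by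
    intro S T hS hT cS cT
    have h1 := Finset.card_inter_add_card_sdiff S T
    have h2 : (T \ S).card = (S \ T).card := by
      rw [Finset.card_sdiff_comm]
      rw [cS, cT]
    refine ⟨by omega, h2, ?_⟩
    rw [card_sdiff_of_subset (union_subset hS hT)]
    have h3 : (S ∪ T).card = F + (S \ T).card := by
      rw [← sdiff_union_self_eq_union, card_union_of_disjoint sdiff_disjoint, cT, add_comm]
    rw [h3]
  obtain ⟨k1, k2, k3, k4⟩ := key S T hS hT cS cT
  obtain ⟨k1', k2', k3', k4'⟩ := key S' T' hS' hT' cS' cT'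
  obtain ⟨c1, c2, c3⟩ := card1 S T hS hT cS cT
  obtain ⟨c1', c2', c3'⟩ := card1 S' T' hS' hT' cS' cT'
  rcases c with j | ⟨p, q⟩
  · congr 1
    ext i
    simp only [mem_filter, mem_univ, true_and, cde_eq_inl]
  · cases p <;> cases q
    · rw [k4, k4', c3, c3', hd]
    · rw [k3, k3', c2, c2', hd]
    · rw [k2, k2', hd]
    · rw [k1, k1', c1, c1', hd]

theorem exists_sigma (b : I → R) (x : I → A) (α β : A) (j : R) (D S T S' T' : Finset I) (F : ℕ)
    (hD : ∀ i ∈ D, b i = j) (hS : S ⊆ D) (hT : T ⊆ D) (hS' : S' ⊆ D)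
    (hT' : T' ⊆ D) (cS : S.card = F) (cT : T.card = F) (cS' : S'.card = F) (cT' : T'.card = F)
    (hd : (S \ T).card = (S' \ T').card) :
    ∃ σ : Equiv.Perm I, (∀ i, b (σ i) = b i) ∧ wd x D α β S ∘ σ = wd x D α β S' ∧
      wd x D α β T ∘ σ = wd x D α β T' := by
  obtain ⟨σ, hσ⟩ := exists_perm_of_card (cde D S T) (cde D S' T')
    (card_cde D S T S' T' F hS hT hS' hT' cS cT cS' cT' hd)
  have hb : ∀ (S T : Finset I) i, b i = Sum.elim b (fun _ => j) (cde D S T i) := by
    intro S T i
    unfold cde
    by_cases h : i ∈ D <;> simp [h, hD]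
  have h1 : ∀ (S T : Finset I) i, wd x D α β S i =
      Sum.elim x (fun p => if p.1 = true then β else α) (cde D S T i) := by
    intro S T i
    unfold cde wd
    by_cases h : i ∈ D <;> simp [h]
  have h2 : ∀ (S T : Finset I) i, wd x D α β T i =
      Sum.elim x (fun p => if p.2 = true then β else α) (cde D S T i) := by
    intro S T i
    unfold cde wd
    by_cases h : i ∈ D <;> simp [h]
  refine ⟨σ, fun i => ?_, ?_, ?_⟩
  · rw [hb S T (σ i), hσ, ← hb S' T' i]
  · funext i
    rw [Function.comp_apply, h1 S T (σ i), hσ, ← h1 S' T' i]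
  · funext i
    rw [Function.comp_apply, h2 S T (σ i), hσ, ← h2 S' T' i]

end

end Pool.Agent.Run7.h414.BS
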